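import Pool.Agent.W945.Pw.Stm2

/-!
# Grouping pieces into two parts
-/

set_option autoImplicit false

namespace Pool.Agent.W67.Pw.GROUP

open Pool.Agent.W945.Pw

theorem main : GROUP.Stm := by
  intro V _ _ W X ι hXW hfib
  have hXW' : X.card ≤ W.card := Finset.card_le_card hXW
  by_cases h0 : 3 * X.card ≤ 2 * W.card
  · refine ⟨fun _ => true, ?_, ?_⟩
    · simpa using h0
    · simp
  · have hex : ∃ k, W.card ≤ 3 * (X.filter fun u => ι u ≤ k).card := by
      refine ⟨X.sup ι, ?_⟩
      have e : (X.filter fun u => ι u ≤ X.sup ι) = X :=
        Finset.filter_true_of_mem (fun u hu => Finset.le_sup hu)
      rw [e]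
      omega
    classical
    set k := Nat.find hex with hk
    have hk1 : W.card ≤ 3 * (X.filter fun u => ι u ≤ k).card := Nat.find_spec hex
    have hf := hfib k
    by_cases h1 : W.card ≤ 3 * (X.filter fun u => ι u = k).card
    · refine ⟨fun j => decide (j = k), ?_, ?_⟩
      · simp only [decide_eq_true_eq]
        omega
      · have e := Finset.card_filter_add_card_filter_not (s := X) (fun u => ι u = k)
        simp only [decide_eq_false_iff_not]
        omega
    · refine ⟨fun j => decide (j ≤ k), ?_, ?_⟩
      · simp only [decide_eq_true_eq]
        have e : (X.filter fun u => ι u ≤ k).card =
            (X.filter fun u => ι u < k).card + (X.filter fun u => ι u = k).card := by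
          rw [← Finset.card_union_of_disjoint]
          · congr 1
            ext u
            simp only [Finset.mem_filter, Finset.mem_union]
            constructor
            · rintro ⟨h, h'⟩
              rcases Nat.lt_or_eq_of_le h' with h'' | h''
              · exact Or.inl ⟨h, h''⟩
              · exact Or.inr ⟨h, h''⟩
            · rintro (⟨h, h'⟩ | ⟨h, h'⟩)
              · exact ⟨h, h'.le⟩
              · exact ⟨h, h'.le⟩
          · rw [Finset.disjoint_left]
            intro u hu hu'
            simp only [Finset.mem_filter] at hu hu'
            omega
        have hlt : 3 * (X.filter fun u => ι u < k).card ≤ W.card := by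
          rcases Nat.eq_zero_or_pos k with hk0 | hk0
          · have : (X.filter fun u => ι u < k) = ∅ := by
              apply Finset.filter_false_of_mem
              intro u _
              omega
            rw [this]
            simp
          · have hm := Nat.find_min hex (m := k - 1) (by omega)
            have e2 : (X.filter fun u => ι u < k) = (X.filter fun u => ι u ≤ k - 1) := by
              apply Finset.filter_congr
              intro u _
              omega
            rw [e2]
            omega
        omega
      · have e := Finset.card_filter_add_card_filter_not (s := X) (fun u => ι u ≤ k)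
        simp only [decide_eq_false_iff_not]
        omega

end Pool.Agent.W67.Pw.GROUP
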